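import Pool.Agent.Q175.BN.Main

/-!
Anisotropic Brezis-Nirenberg problems whose function `f = a^{n/2} / c^{(n-2)/2}` has its only
minimum point on the boundary, non-stationary, but with `λ_{0,*} ≤ 0` (even `≤ L` for any given `L`).

On the unit ball take `f = exp(x₁)`, `b = 1`, `a = 1 + M χ` with a bump `χ` supported in the ball of
radius `1/2`, and `c` determined by `f` and `a`. A test function equal to `1` on the ball of radius
`1/2` does not see the large values of `a` in the Dirichlet integral, while `∫ c |φ|^{2*} → ∞` as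
`M → ∞`, so that the ground state level at a fixed `λ ≤ 0` tends to `0`, whereas `κ` does not depend on `M`.

The definitions are in `Pool.Agent.Q175.BN.Defs`.
-/

namespace Pool.Agent.Results.MP_6822f0_an.ThresholdNotPositive

open Set
open scoped ContDiff
open Pool.Agent.Q175.BN

/-- For every `n ≥ 3` and every real `L` there are smooth positive `a, b, c` such that, with `Θ` the
unit ball, every minimum point of `f` on the closure of `Θ` lies on the boundary and is
non-stationary, and `λ_{0,*} ≤ L`. -/
theorem result (n : ℕ) (hn : 3 ≤ n) (L : ℝ) :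
    ∃ a b c : E n → ℝ, ContDiff ℝ ∞ a ∧ ContDiff ℝ ∞ b ∧ ContDiff ℝ ∞ c ∧
      (∀ x, 0 < a x) ∧ (∀ x, 0 < b x) ∧ (∀ x, 0 < c x) ∧
      (∀ x ∈ closure (Metric.ball (0 : E n) 1),
        IsMinOn (fac a c) (closure (Metric.ball (0 : E n) 1)) x →
          x ∈ frontier (Metric.ball (0 : E n) 1) ∧ gradient (fac a c) x ≠ 0) ∧
      lamStar (Metric.ball (0 : E n) 1) a b c ≤ L := by
  obtain ⟨M, hM, h⟩ := main hn L
  exact ⟨aa M, fun _ => 1, cc hn M, aa_smooth M, contDiff_const, cc_smooth hn hM, aa_pos hM,
    fun _ => one_pos, cc_pos hn hM, fun x hx hmin => min_points hn hM hx hmin, h⟩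

end Pool.Agent.Results.MP_6822f0_an.ThresholdNotPositive
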